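import Pool.Agent.H73.CBF.Gau

/-!
Board `ctg`, row GAU: the theorem of board CBE with the gauge function, on `Fin n → ℂ`.
The proofs are adapted from `Pool/Agent/H24/CBE/DOM.lean` (helper24) and
`Pool/Agent/H81/CBF/XFR.lean` (helper81).
-/

set_option autoImplicit false

open Set Filter Topology

namespace Pool.CBF

namespace GAU

open Pool.CBE MvPolynomial

theorem gau_cont {n : ℕ} {F : E n → ℝ} {a : ℝ} (ha : 0 < a)
    (h : ∀ R : ℝ, ∃ L : ℝ, ∀ z w : E n, ‖z‖ ≤ R → ‖w‖ ≤ R →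
      ‖fderiv ℝ F z - fderiv ℝ F w‖ ≤ L * ‖z - w‖ ^ a) : Continuous (fderiv ℝ F) := by
  rw [continuous_iff_continuousAt]
  intro z
  obtain ⟨L, hL⟩ := h (‖z‖ + 1)
  rw [ContinuousAt, tendsto_iff_norm_sub_tendsto_zero]
  have hlim : Tendsto (fun w : E n => L * ‖w - z‖ ^ a) (𝓝 z) (𝓝 0) := by
    have h1 : Tendsto (fun w : E n => ‖w - z‖) (𝓝 z) (𝓝 0) := by
      have : Continuous fun w : E n => ‖w - z‖ := by fun_prop
      have h2 := this.tendsto z
      simpa using h2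
    have h3 : Tendsto (fun t : ℝ => t ^ a) (𝓝 0) (𝓝 0) := by
      have h4 := (Real.continuousAt_rpow_const 0 a (Or.inr ha.le)).tendsto
      rwa [Real.zero_rpow ha.ne'] at h4
    have h5 := (h3.comp h1).const_mul L
    simpa using h5
  refine squeeze_zero' (Eventually.of_forall fun w => norm_nonneg _) ?_ hlim
  have hb : ∀ᶠ w : E n in 𝓝 z, ‖w - z‖ < 1 := by
    have : Continuous fun w : E n => ‖w - z‖ := by fun_prop
    have h2 := this.tendsto z
    rw [sub_self, norm_zero] at h2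
    exact h2.eventually (gt_mem_nhds one_pos)
  filter_upwards [hb] with w hw
  refine hL w z ?_ (by linarith)
  have : ‖w‖ ≤ ‖w - z‖ + ‖z‖ := by
    have := norm_add_le (w - z) z
    rwa [sub_add_cancel] at this
  linarith

theorem gau_real {n : ℕ} (t : ℝ) (z : E n) : t • z = (t : ℂ) • z := by
  ext i
  simp

/-- The coordinates of the map. -/
noncomputable def pol {n : ℕ} (d : ℕ) (T : Finset (E n)) (w : E n → E n) (i : Fin n) :
    MvPolynomial (Fin n) ℂ :=
  ∑ ζ ∈ T, C (w ζ i) * (∑ k, C ((starRingEnd ℂ) (ζ k)) * X k) ^ d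

theorem pol_hom {n : ℕ} (d : ℕ) (T : Finset (E n)) (w : E n → E n) (i : Fin n) :
    (pol d T w i).IsHomogeneous d := by
  unfold pol
  refine IsHomogeneous.sum _ _ _ fun ζ _ => ?_
  have h1 : (∑ k : Fin n, C ((starRingEnd ℂ) (ζ k)) * X k : MvPolynomial (Fin n) ℂ).IsHomogeneous
      1 := by
    refine IsHomogeneous.sum _ _ _ fun k _ => ?_
    have h2 := (isHomogeneous_C (Fin n) ((starRingEnd ℂ) (ζ k))).mul (isHomogeneous_X ℂ k)
    rwa [zero_add] at h2
  have h3 := (isHomogeneous_C (Fin n) (w ζ i)).mul (h1.pow d)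
  rwa [zero_add, one_mul] at h3

theorem pol_eval {n : ℕ} (d : ℕ) (T : Finset (E n)) (w : E n → E n) (i : Fin n) (x : E n) :
    MvPolynomial.eval (fun k => x k) (pol d T w i) = fm d T w x i := by
  unfold pol fm
  rw [map_sum]
  have h0 : (∑ ζ ∈ T, (inner ℂ ζ x : ℂ) ^ d • w ζ) i = ∑ ζ ∈ T, ((inner ℂ ζ x : ℂ) ^ d • w ζ) i := by
    simp
  rw [h0]
  refine Finset.sum_congr rfl fun ζ _ => ?_
  have h1 : (inner ℂ ζ x : ℂ) = ∑ k, (starRingEnd ℂ) (ζ k) * x k := by
    rw [PiLp.inner_apply]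
    refine Finset.sum_congr rfl fun k _ => ?_
    rw [RCLike.inner_apply, mul_comm]
  rw [h1]
  simp only [map_mul, map_pow, map_sum, eval_C, eval_X, PiLp.smul_apply, smul_eq_mul]
  ring

theorem gau_dom {n : ℕ} {f : E n → E n} {d : ℕ} {η C θ a : ℝ} (h1 : HPRStmt) (h2 : HDAStmt)
    (h3 : HHLStmt) (hyp : Hyp f d η C θ a) :
    ContDiff ℝ 1 (H f d) ∧
      (∀ R : ℝ, ∃ L : ℝ, ∀ z w : E n, ‖z‖ ≤ R → ‖w‖ ≤ R →
        ‖fderiv ℝ (H f d) z - fderiv ℝ (H f d) w‖ ≤ L * ‖z - w‖ ^ a) ∧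
      (∀ z, z ≠ 0 → 0 < H f d z) ∧ (∀ (c : ℂ) (z : E n), H f d (c • z) = ‖c‖ ^ 2 * H f d z) ∧
      (∀ z, H f d z = 1 → fderiv ℝ (H f d) z ≠ 0) ∧
      Bornology.IsBounded {z | H f d z < 1} ∧ IsConnected {z | H f d z < 1} ∧
      MapsTo f {z | H f d z < 1} {z | H f d z < 1} ∧
      (∀ L : Set (E n), L ⊆ {z | H f d z < 1} → IsCompact L →
        IsCompact ({z | H f d z < 1} ∩ f ⁻¹' L)) ∧
      ∃ z w : E n, H f d z < 1 ∧ H f d w < 1 ∧ z ≠ w ∧ f z = f w := by
  obtain ⟨hHf, hHc, m, M, hm, hM, hmM⟩ := h1 n f d η C θ a hyp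
  obtain ⟨hdiff, -, -⟩ := h2 n f d η C θ a hyp
  have hhol := h3 n f d η C θ a hyp
  have hd := hyp.hd
  have hn := hyp.hn
  have hHcont : Continuous (H f d) := continuous_iff_continuousAt.2 fun z => (hdiff z).continuousAt
  have hH0 : ∀ z, 0 ≤ H f d z := fun z => le_trans (by positivity) (hmM z).1
  have hHz : H f d 0 = 0 := by
    have h := (hmM 0).2
    rw [norm_zero] at h
    have h' := hH0 0
    nlinarith
  have hscale : ∀ (c : ℂ) (z : E n), ‖c‖ ≤ 1 → H f d z < 1 → H f d (c • z) < 1 := by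
    intro c z hc hz
    rw [hHc]
    have h4 : ‖c‖ ^ 2 ≤ 1 := pow_le_one₀ (norm_nonneg _) hc
    have h5 := mul_le_mul_of_nonneg_right h4 (hH0 z)
    linarith
  have hbdd : Bornology.IsBounded {z : E n | H f d z < 1} := by
    refine Metric.isBounded_closedBall.subset (?_ : _ ⊆ Metric.closedBall (0 : E n) (1 / m + 1))
    intro z hz
    have hz' : H f d z < 1 := hz
    rw [mem_closedBall_zero_iff]
    have h4 : m * ‖z‖ ^ 2 < 1 := lt_of_le_of_lt (hmM z).1 hz'
    have h5 : ‖z‖ ^ 2 < 1 / m := by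
      rw [lt_div_iff₀ hm]
      linarith
    nlinarith [norm_nonneg z, sq_nonneg (‖z‖ - 1)]
  refine ⟨?_, hhol, ?_, hHc, ?_, hbdd, ?_, ?_, ?_, ?_⟩
  · rw [contDiff_one_iff_fderiv]
    exact ⟨fun z => hdiff z, gau_cont hyp.ha0 hhol⟩
  · intro z hz
    have h4 : 0 < m * ‖z‖ ^ 2 := mul_pos hm (pow_pos (norm_pos_iff.2 hz) 2)
    exact lt_of_lt_of_le h4 (hmM z).1
  · intro z hz1 h0
    have hc1 : HasDerivAt (fun t : ℝ => t • z) z 1 := by
      simpa using (hasDerivAt_id (1 : ℝ)).smul_const z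
    have hc2 : HasFDerivAt (H f d) (fderiv ℝ (H f d) z) ((1 : ℝ) • z) := by
      rw [one_smul]
      exact (hdiff z).hasFDerivAt
    have hc3 := hc2.comp_hasDerivAt (1 : ℝ) hc1
    rw [h0] at hc3
    have hc4 : (H f d ∘ fun t : ℝ => t • z) = fun t : ℝ => t ^ 2 := by
      funext t
      show H f d (t • z) = t ^ 2
      rw [gau_real, hHc, hz1, mul_one, Complex.norm_real, Real.norm_eq_abs, sq_abs]
    rw [hc4] at hc3
    have hc5 : HasDerivAt (fun t : ℝ => t ^ 2) 2 1 := by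
      simpa using hasDerivAt_pow 2 (1 : ℝ)
    have := hc3.unique hc5
    norm_num at this
  · have hst : StarConvex ℝ (0 : E n) {z : E n | H f d z < 1} := by
      intro z hz s t hs ht hst
      rw [smul_zero, zero_add, gau_real]
      refine hscale _ _ ?_ hz
      rw [Complex.norm_real, Real.norm_eq_abs, abs_of_nonneg ht]
      linarith
    have h0 : (0 : E n) ∈ {z : E n | H f d z < 1} := by
      show H f d 0 < 1
      rw [hHz]; norm_num
    exact (hst.isPathConnected h0).isConnected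
  · intro z hz
    have hz' : H f d z < 1 := hz
    show H f d (f z) < 1
    rw [hHf]
    exact pow_lt_one₀ (hH0 z) hz' (by omega : d ≠ 0)
  · intro L hL hLc
    have hfc : Continuous f := hyp.cd.continuous
    have heq : {z : E n | H f d z < 1} ∩ f ⁻¹' L = {z : E n | H f d z ≤ 1} ∩ f ⁻¹' L := by
      ext z
      constructor
      · rintro ⟨hz, hz'⟩
        have h8 : H f d z < 1 := hz
        have h9 : H f d z ≤ 1 := h8.le
        exact ⟨h9, hz'⟩
      · rintro ⟨hz, hz'⟩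
        refine ⟨?_, hz'⟩
        have h5 : H f d (f z) < 1 := hL hz'
        rw [hHf] at h5
        have hz1 : H f d z ≤ 1 := hz
        show H f d z < 1
        rcases lt_or_eq_of_le hz1 with h6 | h6
        · exact h6
        · rw [h6, one_pow] at h5
          exact absurd h5 (lt_irrefl 1)
    have hclosed : IsClosed ({z : E n | H f d z < 1} ∩ f ⁻¹' L) := by
      rw [heq]
      exact (isClosed_le hHcont continuous_const).inter (hLc.isClosed.preimage hfc)
    exact Metric.isCompact_of_isClosed_isBounded hclosed (hbdd.subset inter_subset_left)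
  · have hω := Complex.isPrimitiveRoot_exp d (by omega : d ≠ 0)
    set ω := Complex.exp (2 * Real.pi * Complex.I / d) with hωdef
    have hω1 : ω ^ d = 1 := hω.pow_eq_one
    have hω2 : ω ≠ 1 := hω.ne_one (by omega)
    have hω3 : ‖ω‖ = 1 := Complex.norm_eq_one_of_pow_eq_one hω1 (by omega)
    let e : E n := EuclideanSpace.single (⟨0, by omega⟩ : Fin n) (1 : ℂ)
    have he : ‖e‖ = 1 := by simp [e]
    let t : ℝ := 1 / (M + 1)
    have ht : 0 < t := by positivity
    have hz : H f d ((t : ℂ) • e) < 1 := by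
      have h6 := (hmM e).2
      rw [he, one_pow, mul_one] at h6
      rw [hHc, Complex.norm_real, Real.norm_eq_abs, sq_abs]
      have h7 : t ^ 2 * H f d e ≤ t ^ 2 * M := mul_le_mul_of_nonneg_left h6 (sq_nonneg t)
      have h8 : t ^ 2 * M < 1 := by
        have h9 : t * (M + 1) = 1 := by
          simp only [t]; field_simp
        have h10 : t ≤ 1 := by
          simp only [t]
          rw [div_le_one (by linarith)]
          linarith
        nlinarith
      linarith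
    refine ⟨(t : ℂ) • e, ω • ((t : ℂ) • e), hz, hscale ω _ hω3.le hz, ?_, ?_⟩
    · intro heq
      have h6 : (ω - 1) • ((t : ℂ) • e) = 0 := by
        rw [sub_smul, one_smul, ← heq, sub_self]
      rcases smul_eq_zero.1 h6 with h7 | h7
      · exact hω2 (sub_eq_zero.1 h7)
      · rcases smul_eq_zero.1 h7 with h8 | h8
        · exact ht.ne' (by exact_mod_cast h8)
        · rw [h8, norm_zero] at he
          exact zero_ne_one he
    · rw [hyp.hom ω ((t : ℂ) • e), hω1, one_smul]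

end GAU

open GAU Pool.CBE in
theorem GAU_thm (h1 : CONStmt) (h2 : FDRStmt) (h3 : TRAStmt) (h4 : EXDStmt) (h5 : HPRStmt)
    (h6 : HDAStmt) (h7 : HHLStmt) : GAUStmt := by
  intro n a hn ha0 ha1
  obtain ⟨η, C, hη, hC, hcon⟩ := h1 n hn
  have hκ : 1 ≤ C / η := by
    rw [le_div_iff₀ hη]
    linarith
  obtain ⟨d, hd, hda⟩ := h4 (C / η) a hκ ha0 ha1
  obtain ⟨T, w, hb, hder⟩ := hcon d hd
  obtain ⟨hcd, hhom, _⟩ := h2 n d T w (by omega)
  obtain ⟨ht1, ht2⟩ := h3 n d (fm d T w) η C hd hη hcd hhom hb hder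
  have hs : 1 ≤ √(d : ℝ) := by
    rw [Real.one_le_sqrt]
    have : 1 ≤ d := by omega
    exact_mod_cast this
  have hyp : Hyp (fm d T w) d η C (C / η * √(d : ℝ)) a :=
    { hn := hn
      hd := hd
      cd := hcd
      hom := hhom
      hη := hη
      hC := hC
      lo := fun z => (ht1 z).1
      up := fun z => (ht1 z).2
      hθ := by
        calc (1 : ℝ) = 1 * 1 := by ring
          _ ≤ C / η * √(d : ℝ) := mul_le_mul hκ hs zero_le_one (by linarith)
      ex := by
        intro z v hz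
        have e1 := ht2 z v hz
        have e2 : C * √(d : ℝ) / η = C / η * √(d : ℝ) := by ring
        rw [e2] at e1
        exact e1
      ha0 := ha0
      ha1 := ha1
      hθa := hda }
  obtain ⟨hρ, hHol, hpos, hsc, hgr, hbd, hcon', hmap, hprop, x, y, hx, hy, hxy, hfxy⟩ :=
    gau_dom h5 h6 h7 hyp
  set ρ : E n → ℝ := H (fm d T w) d with hρdef
  let e : E n ≃L[ℂ] (Fin n → ℂ) := EuclideanSpace.equiv (Fin n) ℂ
  let B : (Fin n → ℂ) ≃L[ℝ] E n := (PiLp.continuousLinearEquiv 2 ℝ (fun _ : Fin n => ℂ)).symm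
  have hfd : ∀ z, fderiv ℝ (fun z => ρ (e.symm z)) z =
      (fderiv ℝ ρ (e.symm z)).comp (B : (Fin n → ℂ) →L[ℝ] E n) :=
    fun z => B.comp_right_fderiv (f := ρ) (x := z)
  have himg : {z : Fin n → ℂ | ρ (e.symm z) < 1} = e '' {z | ρ z < 1} := by
    ext z
    constructor
    · intro hz
      exact ⟨e.symm z, hz, e.apply_symm_apply z⟩
    · rintro ⟨u, hu, rfl⟩
      show ρ (e.symm (e u)) < 1
      rw [e.symm_apply_apply]
      exact hu
  have hdiff := (h2 n d T w (by omega)).1.differentiable (by norm_num)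
  refine ⟨d, fun z => ρ (e.symm z), fun z => e (fm d T w (e.symm z)), hd, ?_, ?_, ?_, ?_, ?_, ?_,
    ?_, ?_, ?_, ?_, ?_, ?_⟩
  · exact hρ.comp B.contDiff
  · intro R
    obtain ⟨L, hL⟩ := hHol (‖(B : (Fin n → ℂ) →L[ℝ] E n)‖ * R)
    refine ⟨|L| * ‖(B : (Fin n → ℂ) →L[ℝ] E n)‖ ^ a * ‖(B : (Fin n → ℂ) →L[ℝ] E n)‖, ?_⟩
    intro z z' hz hz'
    rw [hfd, hfd, ← ContinuousLinearMap.sub_comp]
    have hb0 : 0 ≤ ‖(B : (Fin n → ℂ) →L[ℝ] E n)‖ := norm_nonneg _
    have hle : ∀ u : Fin n → ℂ, ‖e.symm u‖ ≤ ‖(B : (Fin n → ℂ) →L[ℝ] E n)‖ * ‖u‖ :=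
      fun u => (B : (Fin n → ℂ) →L[ℝ] E n).le_opNorm u
    have h3 := hL (e.symm z) (e.symm z')
      ((hle z).trans (mul_le_mul_of_nonneg_left hz hb0))
      ((hle z').trans (mul_le_mul_of_nonneg_left hz' hb0))
    have h4 : ‖e.symm z - e.symm z'‖ ^ a ≤
        (‖(B : (Fin n → ℂ) →L[ℝ] E n)‖ * ‖z - z'‖) ^ a := by
      rw [← map_sub]
      exact Real.rpow_le_rpow (norm_nonneg _) (hle _) ha0.le
    rw [Real.mul_rpow hb0 (norm_nonneg _)] at h4
    have h5 : ‖fderiv ℝ ρ (e.symm z) - fderiv ℝ ρ (e.symm z')‖ ≤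
        |L| * (‖(B : (Fin n → ℂ) →L[ℝ] E n)‖ ^ a * ‖z - z'‖ ^ a) := by
      refine h3.trans ?_
      refine (mul_le_mul_of_nonneg_right (le_abs_self L)
        (Real.rpow_nonneg (norm_nonneg _) _)).trans ?_
      exact mul_le_mul_of_nonneg_left h4 (abs_nonneg L)
    calc ‖(fderiv ℝ ρ (e.symm z) - fderiv ℝ ρ (e.symm z')).comp
          (B : (Fin n → ℂ) →L[ℝ] E n)‖
        ≤ ‖fderiv ℝ ρ (e.symm z) - fderiv ℝ ρ (e.symm z')‖ *
            ‖(B : (Fin n → ℂ) →L[ℝ] E n)‖ := ContinuousLinearMap.opNorm_comp_le _ _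
      _ ≤ |L| * (‖(B : (Fin n → ℂ) →L[ℝ] E n)‖ ^ a * ‖z - z'‖ ^ a) *
            ‖(B : (Fin n → ℂ) →L[ℝ] E n)‖ := mul_le_mul_of_nonneg_right h5 hb0
      _ = _ := by ring
  · intro z hz
    refine hpos (e.symm z) fun h0 => hz ?_
    have h8 := congrArg e h0
    rwa [e.apply_symm_apply, map_zero] at h8
  · intro c z
    show ρ (e.symm (c • z)) = ‖c‖ ^ 2 * ρ (e.symm z)
    rw [map_smul]
    exact hsc c _
  · intro z hz h3
    refine hgr (e.symm z) hz ?_
    rw [hfd] at h3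
    ext v
    have h4 := congrArg (fun A : (Fin n → ℂ) →L[ℝ] ℝ => A (e v)) h3
    have h5 : (fderiv ℝ ρ (e.symm z)) (e.symm (e v)) = 0 := h4
    rw [e.symm_apply_apply] at h5
    simpa using h5
  · rw [himg]
    exact (e : E n →L[ℂ] (Fin n → ℂ)).lipschitz.isBounded_image hbd
  · rw [himg]
    exact hcon'.image _ e.continuous.continuousOn
  · exact ⟨pol d T w, pol_hom d T w, fun z i => (pol_eval d T w i (e.symm z)).symm⟩
  · exact e.differentiable.comp (hdiff.comp e.symm.differentiable)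
  · intro z hz
    show ρ (e.symm (e (fm d T w (e.symm z)))) < 1
    rw [e.symm_apply_apply]
    exact hmap hz
  · intro L hLs hLc
    have h3 := hprop (e.symm '' L) (by
      rintro _ ⟨z, hz, rfl⟩
      exact hLs hz) (hLc.image e.symm.continuous)
    have h4 : {z : Fin n → ℂ | ρ (e.symm z) < 1} ∩
        (fun z => e (fm d T w (e.symm z))) ⁻¹' L =
        e '' ({z | ρ z < 1} ∩ fm d T w ⁻¹' (e.symm '' L)) := by
      ext z
      constructor
      · rintro ⟨hz1, hz2⟩
        refine ⟨e.symm z, ⟨hz1, ⟨_, hz2, ?_⟩⟩, e.apply_symm_apply z⟩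
        exact e.symm_apply_apply _
      · rintro ⟨u, ⟨hu1, ⟨v, hv, hv2⟩⟩, rfl⟩
        refine ⟨?_, ?_⟩
        · show ρ (e.symm (e u)) < 1
          rw [e.symm_apply_apply]
          exact hu1
        · show e (fm d T w (e.symm (e u))) ∈ L
          rw [e.symm_apply_apply, ← hv2, e.apply_symm_apply]
          exact hv
    rw [h4]
    exact h3.image e.continuous
  · intro hinj
    refine hxy (e.injective (hinj ?_ ?_ ?_))
    · show ρ (e.symm (e x)) < 1
      rw [e.symm_apply_apply]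
      exact hx
    · show ρ (e.symm (e y)) < 1
      rw [e.symm_apply_apply]
      exact hy
    · show e (fm d T w (e.symm (e x))) = e (fm d T w (e.symm (e y)))
      rw [e.symm_apply_apply, e.symm_apply_apply, hfxy]

end Pool.CBF
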